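import Mathlib
import Pool.Agent.H257R4.TP.Blk
import Pool.Agent.H257R4.TP.Eval
import Pool.Agent.H560R2.Dep3

/-!
# Monotone programs as lists of gates
-/

set_option autoImplicit false

namespace Pool.Agent.W953.PD

open Pool.Agent.H257R4.TP Pool.Agent.H560R2 Pool.Agent.H520R2

variable {X : Type}

lemma evL_len (v : X → Bool) (G : List (Gate X)) : (evL v G).length = G.length :=
  BlkAux.evL_length v G

/-- the input gates -/
lemma inputs (Vs : List X) : ∃ G : List (Gate X), WF G ∧ G.length = Vs.length ∧
    ∀ z ∈ Vs, ∃ j < G.length, ∀ v : X → Bool, (evL v G)[j]?.getD false = v z := by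
  induction Vs with
  | nil => exact ⟨[], trivial, rfl, fun z hz => absurd hz (by simp)⟩
  | cons a Vs ih =>
    obtain ⟨G, h1, h2, h3⟩ := ih
    refine ⟨.inp a :: G, h1, by simp [h2], fun z hz => ?_⟩
    rcases List.mem_cons.mp hz with rfl | hz
    · exact ⟨0, by simp, fun v => by simp [evL]⟩
    · obtain ⟨j, hj, hv⟩ := h3 z hz
      exact ⟨j + 1, by simpa using hj, fun v => by simpa [evL] using hv v⟩

/-- programs are lists of gates -/
theorem gates_of_prog [Fintype X] {L : List ((X → Bool) → Bool)} (hL : MProg (vars X) L) :
    ∃ G : List (Gate X), WF G ∧ G.length = L.length + Fintype.card X ∧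
      ∀ f, (f ∈ vars X ∨ f ∈ L) → ∃ j < G.length, ∀ v, (evL v G)[j]?.getD false = f v := by
  induction hL with
  | nil =>
    obtain ⟨G, h1, h2, h3⟩ := inputs (Finset.univ : Finset X).toList
    refine ⟨G, h1, by rw [h2]; simp, fun f hf => ?_⟩
    rcases hf with ⟨z, rfl⟩ | hf
    · exact h3 z (by simp)
    · exact absurd hf (by simp)
  | and h hf hg ih =>
    obtain ⟨G, h1, h2, h3⟩ := ih
    obtain ⟨a, ha, hav⟩ := h3 _ hf
    obtain ⟨b, hb, hbv⟩ := h3 _ hg
    refine ⟨.an a b :: G, ⟨ha, hb, h1⟩, by simp only [List.length_cons]; omega, fun f' hf' => ?_⟩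
    rcases hf' with hf' | hf'
    · obtain ⟨j, hj, hv⟩ := h3 _ (Or.inl hf')
      exact ⟨j + 1, by simpa using hj, fun v => by simpa [evL] using hv v⟩
    · rcases List.mem_cons.mp hf' with rfl | hf'
      · refine ⟨0, by simp, fun v => ?_⟩
        have e1 := hav v
        have e2 := hbv v
        simp only [evL, List.getElem?_cons_zero, Option.getD_some]
        rw [e1, e2]
      · obtain ⟨j, hj, hv⟩ := h3 _ (Or.inr hf')
        exact ⟨j + 1, by simpa using hj, fun v => by simpa [evL] using hv v⟩
  | or h hf hg ih =>
    obtain ⟨G, h1, h2, h3⟩ := ih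
    obtain ⟨a, ha, hav⟩ := h3 _ hf
    obtain ⟨b, hb, hbv⟩ := h3 _ hg
    refine ⟨.or a b :: G, ⟨ha, hb, h1⟩, by simp only [List.length_cons]; omega, fun f' hf' => ?_⟩
    rcases hf' with hf' | hf'
    · obtain ⟨j, hj, hv⟩ := h3 _ (Or.inl hf')
      exact ⟨j + 1, by simpa using hj, fun v => by simpa [evL] using hv v⟩
    · rcases List.mem_cons.mp hf' with rfl | hf'
      · refine ⟨0, by simp, fun v => ?_⟩
        have e1 := hav v
        have e2 := hbv v
        simp only [evL, List.getElem?_cons_zero, Option.getD_some]
        rw [e1, e2]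
      · obtain ⟨j, hj, hv⟩ := h3 _ (Or.inr hf')
        exact ⟨j + 1, by simpa using hj, fun v => by simpa [evL] using hv v⟩

/-- the number of the cells that carry a variable -/
def rel (F : List (Tag × Option X)) : ℕ := F.countP (fun a => a.2.isSome)

lemma rel_block (g : Gate X) : rel g.block ≤ 1 := by
  cases g with
  | inp x => simp [rel, Gate.block]
  | cst c => cases c <;> simp [rel, Gate.block]
  | an x y => simp [rel, Gate.block, List.countP_append, List.countP_replicate]
  | or x y => simp [rel, Gate.block, List.countP_append, List.countP_replicate]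

lemma rel_cells (G : List (Gate X)) : rel (cells G) ≤ G.length := by
  induction G with
  | nil => simp [rel, cells]
  | cons g G ih =>
    have h1 : rel (cells (g :: G)) = rel (cells G) + rel g.block := by
      show List.countP _ (cells G ++ g.block) = _
      rw [List.countP_append]
      rfl
    have h2 := rel_block g
    rw [h1, List.length_cons]
    omega

/-- the cells of the circuit with `k` cells of padding in front -/
def fullW (k : ℕ) (H : List (Gate X)) : List (Tag × Option X) :=
  List.replicate k (Tag.pa, none) ++ cells H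

lemma rel_full (k : ℕ) (G : List (Gate X)) : rel (fullW k G) ≤ G.length := by
  have h1 : rel (fullW k G) = rel (cells G) := by
    unfold fullW rel
    rw [List.countP_append, List.countP_replicate]
    simp
  rw [h1]
  exact rel_cells G

/-- the cells that carry a variable, as a set of positions -/
lemma card_rel (F : List (Tag × Option X)) :
    (Finset.univ.filter (fun i : Fin F.length => ((F.get i).2).isSome = true)).card = rel F := by
  classical
  have h1 : F = List.ofFn (fun i => F.get i) := (List.ofFn_get F).symm
  unfold rel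
  conv_rhs => rw [h1]
  rw [List.ofFn_eq_map, List.countP_map, List.countP_eq_length_filter]
  have h2 : (Finset.univ.filter (fun i : Fin F.length => ((F.get i).2).isSome = true)) =
      ((List.finRange F.length).filter
        ((fun a : Tag × Option X => a.2.isSome) ∘ fun i => F.get i)).toFinset := by
    ext i
    simp
  rw [h2, List.toFinset_card_of_nodup]
  exact (List.nodup_finRange _).filter _

end Pool.Agent.W953.PD
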