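import Mathlib
import Pool.Agent.W953.PD.Gates
import Pool.Agent.W953.SR.Core
import Pool.Agent.H257R4.TP.Mach3
import Pool.Agent.H257R4.TP.Mono
import Pool.Agent.H257R4.TP.Len

/-!
# A language of a deterministic two-way pushdown automaton that is hard on slices
-/

set_option autoImplicit false

namespace Pool.Agent.W953.PD

open Pool.Agent.H257R4.TP Pool.Agent.H560R2 Pool.Agent.H520R2 Pool.Agent.W953.SR
  Pool.Agent.W953.SP Pool.Agent.W953.PT Pool.Agent.W953.NW

universe u

variable {X : Type}

/-- the word of the bits `x` with the tags of the list `F` -/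
def wrdW (F : List (Tag × Option X)) (x : Fin F.length → Bool) : List (Tag × Bool) :=
  List.ofFn (fun i => ((F.get i).1, x i))

theorem wrdW_get (F : List (Tag × Option X)) (x : Fin F.length → Bool) (p : ℕ)
    (hp : p < F.length) : ((wrdW F x)[p]?.map Prod.snd).getD false = x ⟨p, hp⟩ := by
  unfold wrdW
  rw [List.getElem?_eq_getElem (by simpa using hp), List.getElem_ofFn]
  rfl

theorem wrdW_get_none (F : List (Tag × Option X)) (x : Fin F.length → Bool) (p : ℕ)
    (hp : ¬ p < F.length) : ((wrdW F x)[p]?.map Prod.snd).getD false = false := by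
  unfold wrdW
  rw [List.getElem?_eq_none (by simpa using hp)]
  rfl

theorem wrdW_fst (k : ℕ) (H : List (Gate X)) (x : Fin (fullW k H).length → Bool) :
    (wrdW (fullW k H) x).map Prod.fst = List.replicate k Tag.pa ++ (cells H).map Prod.fst := by
  have h1 : List.replicate k Tag.pa ++ (cells H).map Prod.fst = (fullW k H).map Prod.fst := by
    unfold fullW
    rw [List.map_append, List.map_replicate]
  rw [h1]
  unfold wrdW
  rw [List.map_ofFn]
  conv_rhs => rw [← List.ofFn_get (fullW k H), List.map_ofFn]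
  rfl

/-- the bits of the cells of the circuit -/
def btW (k : ℕ) (H : List (Gate X)) (x : Fin (fullW k H).length → Bool) (p : ℕ) : Bool :=
  (((wrdW (fullW k H) x)[k + p]?).map Prod.snd).getD false

theorem wrdW_mem {k : ℕ} {H : List (Gate X)} (hW : WF H) (hne : H ≠ [])
    (x : Fin (fullW k H).length → Bool) :
    wrdW (fullW k H) x ∈ LL ↔ (evP (btW k H x) H)[0]?.getD false = true :=
  mach X H hW hne k _ (wrdW_fst k H x)

theorem wrdW_mono {k : ℕ} {H : List (Gate X)} (hW : WF H) (hne : H ≠ [])
    (x y : Fin (fullW k H).length → Bool) (hxy : ∀ i, x i = true → y i = true)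
    (hx : wrdW (fullW k H) x ∈ LL) : wrdW (fullW k H) y ∈ LL := by
  rw [wrdW_mem hW hne] at hx ⊢
  refine mono X _ _ ?_ H 0 hx
  intro p hp
  unfold btW at hp ⊢
  by_cases h : k + p < (fullW k H).length
  · rw [wrdW_get _ _ _ h] at hp ⊢
    exact hxy _ hp
  · rw [wrdW_get_none _ _ _ h] at hp
    cases hp

theorem wrdW_eval {k : ℕ} {H : List (Gate X)} (hW : WF H) (hne : H ≠ [])
    (v : X → Bool) (x : Fin (fullW k H).length → Bool)
    (hx : ∀ i z, ((fullW k H).get i).2 = some z → x i = v z) :
    wrdW (fullW k H) x ∈ LL ↔ (evL v H)[0]?.getD false = true := by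
  rw [wrdW_mem hW hne, eval_eq X (btW k H x) v H]
  intro p t z hp
  have hlt : p < (cells H).length := by
    by_contra hlt
    rw [List.getElem?_eq_none (by omega)] at hp
    cases hp
  have hlen : k + p < (fullW k H).length := by
    unfold fullW
    rw [List.length_append, List.length_replicate]
    omega
  unfold btW
  rw [wrdW_get _ _ _ hlen]
  apply hx
  have h1 : (fullW k H)[k + p]? = some (t, some z) := by
    unfold fullW
    rw [List.getElem?_append_right (by simp), List.length_replicate, Nat.add_sub_cancel_left, hp]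
  rw [List.getElem?_eq_getElem hlen] at h1
  have h2 := Option.some.inj h1
  show ((fullW k H)[k + p]).2 = some z
  rw [h2]

/-- the input of given values of the variables and given bits of the other cells -/
def inpW (F : List (Tag × Option X)) (c : Fin F.length → Bool) (v : X → Bool) :
    Fin F.length → Bool := fun i => ((F.get i).2.map v).getD (c i)

lemma inpW_some {F : List (Tag × Option X)} {c : Fin F.length → Bool} {v : X → Bool}
    {i : Fin F.length} {z : X} (h : (F.get i).2 = some z) : inpW F c v i = v z := by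
  unfold inpW
  rw [h]
  rfl

lemma inpW_none {F : List (Tag × Option X)} {c : Fin F.length → Bool} {v : X → Bool}
    {i : Fin F.length} (h : (F.get i).2 = none) : inpW F c v i = c i := by
  unfold inpW
  rw [h]
  rfl

/-- the weight of the input -/
lemma wt_inpW (F : List (Tag × Option X)) (S : Finset (Fin F.length))
    (hS : ∀ i ∈ S, (F.get i).2 = none) (v : X → Bool) :
    S.card ≤ wt (inpW F (fun i => decide (i ∈ S)) v) ∧
      wt (inpW F (fun i => decide (i ∈ S)) v) ≤ S.card + rel F := by
  classical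
  constructor
  · unfold wt
    apply Finset.card_le_card
    intro i hi
    refine Finset.mem_filter.mpr ⟨Finset.mem_univ _, ?_⟩
    rw [inpW_none (hS i hi)]
    exact decide_eq_true hi
  · rw [← card_rel F]
    refine le_trans (Finset.card_le_card ?_) (Finset.card_union_le _ _)
    intro i hi
    have hi' := (Finset.mem_filter.mp hi).2
    cases hz : (F.get i).2 with
    | none =>
      rw [inpW_none hz] at hi'
      exact Finset.mem_union_left _ (of_decide_eq_true hi')
    | some z =>
      refine Finset.mem_union_right _ (Finset.mem_filter.mpr ⟨Finset.mem_univ _, ?_⟩)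
      rw [hz]
      rfl

lemma exists_pad (F : List (Tag × Option X)) {k : ℕ} (hk : k + rel F ≤ F.length) :
    ∃ S : Finset (Fin F.length), (∀ i ∈ S, (F.get i).2 = none) ∧ S.card = k := by
  classical
  have h1 := Finset.card_filter_add_card_filter_not
    (s := (Finset.univ : Finset (Fin F.length))) (fun i => ((F.get i).2).isSome = true)
  rw [card_rel F, Finset.card_univ, Fintype.card_fin] at h1
  obtain ⟨S, hS, hc⟩ := Finset.exists_subset_card_eq
    (s := Finset.univ.filter (fun i : Fin F.length => ¬ ((F.get i).2).isSome = true)) (n := k)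
    (by omega)
  refine ⟨S, fun i hi => ?_, hc⟩
  have := (Finset.mem_filter.mp (hS hi)).2
  simpa using this

/-- One word for each length, on which the automaton is hard for computations in rounds. -/
theorem pda_hard (D M U n : ℕ) (hM : 1 ≤ M) (hU : 5 * M * vno D ≤ U) (hUn : U ≤ n)
    (hn : 45 * M * vno D ^ 2 ≤ n) :
    ∃ t : Fin n → Tag, (∀ x y : Fin n → Bool, (∀ i, x i = true → y i = true) →
        List.ofFn (fun i => (t i, x i)) ∈ LL → List.ofFn (fun i => (t i, y i)) ∈ LL) ∧
      ∀ (T : Type u) (𝒯 : Tests T (Fin n)), RankTests 𝒯 → Prog.Mono 𝒯 →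
      ∀ k, k + U ≤ n → ∀ p : Prog T, p.cost ≤ M → p.load 𝒯 < 4 ^ (D + 1) →
        ∃ x, k ≤ wt x ∧ wt x ≤ k + U ∧
          ¬ (p.Acc 𝒯 x ↔ List.ofFn (fun i => (t i, x i)) ∈ LL) := by
  classical
  obtain ⟨V, dV, fV, P, t, lvl, d, q, hq, h1, h2, h3, h4, h5, -, h6⟩ := exists_gadget D
  have hv := vno_pos D
  obtain ⟨L, hL, hlen, hav⟩ := orPeb_prog (t := t) hq h1 lvl h2 1 one_pos
    (Prod.snd : Fin 1 × PVar P q → PVar P q)
  obtain ⟨G, g1, g2, g3⟩ := gates_of_prog hL
  obtain ⟨j, hj, hjv⟩ := g3 _ hav
  have hpeb : ∀ v : PVar P q → Bool, (evL v G)[j]?.getD false = true ↔ pebF P t q v := by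
    intro v
    rw [hjv v]
    unfold orPeb
    rw [decide_eq_true_iff]
    constructor
    · rintro ⟨_, h⟩
      exact h
    · intro h
      exact ⟨0, h⟩
  have hcardP := card_pvar' (P := P) h1 hq
  have hG : G.length + 1 ≤ 4 * vno D := by
    have e1 : 1 * (3 * Fintype.card V * q ^ 3 + 2 * q) = 3 * (Fintype.card V * q ^ 3) + 2 * q := by
      ring
    rw [e1] at hlen
    omega
  obtain ⟨H, hWH, hHne, hHlen, hLoc, hHev⟩ := blocks (Fin M × PVar P q) _ G g1 j hj M
    (fun b y => (⟨b % M, Nat.mod_lt _ hM⟩, y))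
  have hcells := len_le _ _ H hLoc
  have hHl : H.length ≤ 5 * M * vno D := by
    rw [hHlen]
    have e1 : M * (G.length + 1) ≤ M * (4 * vno D) := Nat.mul_le_mul_left _ hG
    have e2 : 1 ≤ M * vno D := Nat.mul_pos hM hv
    have e3 : 5 * M * vno D = M * (4 * vno D) + M * vno D := by ring
    omega
  have hcl : (cells H).length ≤ n := by
    refine hcells.trans (le_trans ?_ hn)
    have e1 : 2 * (G.length + 1) + 1 ≤ 9 * vno D := by omega
    calc H.length * (2 * (G.length + 1) + 1) ≤ (5 * M * vno D) * (9 * vno D) :=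
          Nat.mul_le_mul hHl e1
      _ = 45 * M * vno D ^ 2 := by ring
  obtain ⟨k₀, hk₀⟩ : ∃ k, n = k + (cells H).length := ⟨n - (cells H).length, by omega⟩
  have hfl : (fullW k₀ H).length = n := by
    unfold fullW
    rw [List.length_append, List.length_replicate, hk₀]
  subst hfl
  refine ⟨fun i => ((fullW k₀ H).get i).1, fun x y hxy hx => wrdW_mono hWH hHne x y hxy hx,
    fun T 𝒯 h𝒯 hmono k hk p hcost hload => ?_⟩
  have hrel : rel (fullW k₀ H) ≤ U := (rel_full k₀ H).trans (hHl.trans hU)
  obtain ⟨S, hS, hSk⟩ := exists_pad (fullW k₀ H) (k := k) (by omega)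
  by_contra hcon
  push Not at hcon
  have hlt := copies_lt h𝒯 hmono lvl h2 hq h3 h4 (M := M)
    (fun Y => inpW (fullW k₀ H) (fun i => decide (i ∈ S)) (fun z => Y z.1 z.2)) (by
      intro i
      cases hz : ((fullW k₀ H).get i).2 with
      | none => exact Or.inr ⟨_, fun Y => inpW_none hz⟩
      | some z => exact Or.inl ⟨z.1, z.2, fun Y => inpW_some hz⟩) p (by
      intro Y
      obtain ⟨w1, w2⟩ := wt_inpW (fullW k₀ H) S hS (fun z => Y z.1 z.2)
      rw [hcon _ (by omega) (by omega)]
      refine (wrdW_eval hWH hHne (fun z => Y z.1 z.2) _ (fun i z hz => inpW_some hz)).trans ?_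
      rw [hHev]
      constructor
      · rintro ⟨b, _, hb⟩
        exact ⟨⟨b % M, Nat.mod_lt _ hM⟩, (hpeb _).mp hb⟩
      · rintro ⟨J, hJ⟩
        refine ⟨J.1, J.2, (hpeb _).mpr ?_⟩
        have : (⟨J.1 % M, Nat.mod_lt _ hM⟩ : Fin M) = J := Fin.ext (Nat.mod_eq_of_lt J.2)
        simp only [this]
        exact hJ) (h6 _ hload)
  omega

end Pool.Agent.W953.PD
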