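import Mathlib
import Pool.Agent.W953.PD.Hard
import Pool.Agent.W953.SP.Sav

/-!
# Numbers
-/

set_option autoImplicit false

namespace Pool.Agent.W953.PD

open Pool.Agent.W953.PT

/-- `m (log m + 1) ^ 8` -/
def nl (m : ℕ) : ℕ := m * (Nat.log 2 m + 1) ^ 8

lemma log_mul_le (a b : ℕ) (ha : 1 ≤ a) (hb : 1 ≤ b) :
    Nat.log 2 (a * b) ≤ Nat.log 2 a + Nat.log 2 b + 1 := by
  have h1 : a < 2 ^ (Nat.log 2 a + 1) := Nat.lt_pow_succ_log_self (by norm_num) a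
  have h2 : b < 2 ^ (Nat.log 2 b + 1) := Nat.lt_pow_succ_log_self (by norm_num) b
  have h3 : a * b < 2 ^ (Nat.log 2 a + Nat.log 2 b + 2) := by
    calc a * b < 2 ^ (Nat.log 2 a + 1) * 2 ^ (Nat.log 2 b + 1) := Nat.mul_lt_mul'' h1 h2
      _ = 2 ^ (Nat.log 2 a + Nat.log 2 b + 2) := by rw [← pow_add]; congr 1; ring
  have h4 : a * b ≠ 0 := Nat.mul_ne_zero (by omega) (by omega)
  have := Nat.log_lt_of_lt_pow h4 h3
  omega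

lemma vno_le (A m : ℕ) (hm : 1 ≤ m) :
    vno (A * m) ≤ 2 ^ 42 * (A + 1) * (Nat.log 2 (A + 1) + 7) ^ 8 * nl m := by
  have h1 : A * m + 1 ≤ (A + 1) * m := by nlinarith
  have h2 : Nat.log 2 (A * m + 1) + 6 ≤ (Nat.log 2 (A + 1) + 7) * (Nat.log 2 m + 1) := by
    have h3 := Nat.log_mono_right (b := 2) h1
    have h4 := log_mul_le (A + 1) m (by omega) hm
    nlinarith [Nat.zero_le (Nat.log 2 (A + 1)), Nat.zero_le (Nat.log 2 m)]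
  unfold vno nl
  calc 2 ^ 42 * (A * m + 1) * (Nat.log 2 (A * m + 1) + 6) ^ 8 ≤
      2 ^ 42 * ((A + 1) * m) * ((Nat.log 2 (A + 1) + 7) * (Nat.log 2 m + 1)) ^ 8 :=
        Nat.mul_le_mul (Nat.mul_le_mul_left _ h1) (Nat.pow_le_pow_left h2 8)
    _ = 2 ^ 42 * (A + 1) * (Nat.log 2 (A + 1) + 7) ^ 8 * (m * (Nat.log 2 m + 1) ^ 8) := by
      rw [mul_pow]; ring

/-- deterministic tests: `n ^ c < 4 ^ (D + 1)` with `vno D` at most `C nl (log n + 1)` -/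
lemma num_det (c : ℕ) : ∃ C : ℕ, ∀ n : ℕ, ∃ D, n ^ c < 4 ^ (D + 1) ∧
    5 * vno D ≤ C * nl (Nat.log 2 n + 1) ∧ 45 * vno D ^ 2 ≤ C * nl (Nat.log 2 n + 1) ^ 2 := by
  obtain ⟨K, hK⟩ : ∃ K, K = 2 ^ 42 * (c + 1) * (Nat.log 2 (c + 1) + 7) ^ 8 := ⟨_, rfl⟩
  have hK1 : 1 ≤ K := by rw [hK]; exact Nat.succ_le_of_lt (by positivity)
  refine ⟨45 * K ^ 2, fun n => ⟨c * (Nat.log 2 n + 1), ?_, ?_, ?_⟩⟩
  · have h1 : n ≤ 2 ^ (Nat.log 2 n + 1) := (Nat.lt_pow_succ_log_self (by norm_num) n).le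
    have h4 : (4 : ℕ) = 2 ^ 2 := by norm_num
    calc n ^ c ≤ (2 ^ (Nat.log 2 n + 1)) ^ c := Nat.pow_le_pow_left h1 c
      _ = 2 ^ (c * (Nat.log 2 n + 1)) := by rw [← pow_mul, Nat.mul_comm]
      _ < 4 ^ (c * (Nat.log 2 n + 1) + 1) := by
        rw [h4, ← pow_mul]
        exact Nat.pow_lt_pow_right (by norm_num) (by omega)
  · have h1 := vno_le c (Nat.log 2 n + 1) (by omega)
    rw [← hK] at h1
    have h2 : 5 * K ≤ 45 * K ^ 2 := by nlinarith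
    calc 5 * vno (c * (Nat.log 2 n + 1)) ≤ 5 * (K * nl (Nat.log 2 n + 1)) :=
          Nat.mul_le_mul_left _ h1
      _ = (5 * K) * nl (Nat.log 2 n + 1) := by ring
      _ ≤ 45 * K ^ 2 * nl (Nat.log 2 n + 1) := Nat.mul_le_mul_right _ h2
  · have h1 := vno_le c (Nat.log 2 n + 1) (by omega)
    rw [← hK] at h1
    calc 45 * vno (c * (Nat.log 2 n + 1)) ^ 2 ≤ 45 * (K * nl (Nat.log 2 n + 1)) ^ 2 :=
          Nat.mul_le_mul_left _ (Nat.pow_le_pow_left h1 2)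
      _ = 45 * K ^ 2 * nl (Nat.log 2 n + 1) ^ 2 := by ring

lemma nl_sq (m : ℕ) : nl (m ^ 2) ≤ 2 ^ 8 * (m * nl m) := by
  rcases Nat.eq_zero_or_pos m with h | h
  · subst h
    simp [nl]
  · unfold nl
    have h1 := log_mul_le m m h h
    have h2 : Nat.log 2 (m ^ 2) + 1 ≤ 2 * (Nat.log 2 m + 1) := by
      rw [pow_two]
      omega
    calc m ^ 2 * (Nat.log 2 (m ^ 2) + 1) ^ 8 ≤ m ^ 2 * (2 * (Nat.log 2 m + 1)) ^ 8 :=
          Nat.mul_le_mul_left _ (Nat.pow_le_pow_left h2 8)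
      _ = 2 ^ 8 * (m * (m * (Nat.log 2 m + 1) ^ 8)) := by rw [mul_pow]; ring

/-- directed networks -/
lemma num_dir (c : ℕ) : ∃ C : ℕ, ∀ n : ℕ, ∃ D ℓ, n ^ c ≤ 2 ^ ℓ ∧ (ℓ + 3) ^ 2 ≤ 2 * D + 1 ∧
    5 * vno D ≤ C * ((Nat.log 2 n + 1) * nl (Nat.log 2 n + 1)) ∧
    45 * vno D ^ 2 ≤ C * ((Nat.log 2 n + 1) * nl (Nat.log 2 n + 1)) ^ 2 := by
  obtain ⟨A, hA⟩ : ∃ A, A = (c + 3) ^ 2 := ⟨_, rfl⟩
  obtain ⟨K, hK⟩ : ∃ K, K = 2 ^ 42 * (A + 1) * (Nat.log 2 (A + 1) + 7) ^ 8 * 2 ^ 8 := ⟨_, rfl⟩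
  have hK1 : 1 ≤ K := by rw [hK]; exact Nat.succ_le_of_lt (by positivity)
  refine ⟨45 * K ^ 2, fun n => ⟨A * (Nat.log 2 n + 1) ^ 2, c * (Nat.log 2 n + 1), ?_, ?_, ?_, ?_⟩⟩
  · have h1 : n ≤ 2 ^ (Nat.log 2 n + 1) := (Nat.lt_pow_succ_log_self (by norm_num) n).le
    calc n ^ c ≤ (2 ^ (Nat.log 2 n + 1)) ^ c := Nat.pow_le_pow_left h1 c
      _ = 2 ^ (c * (Nat.log 2 n + 1)) := by rw [← pow_mul, Nat.mul_comm]
  · have h1 : c * (Nat.log 2 n + 1) + 3 ≤ (c + 3) * (Nat.log 2 n + 1) := by nlinarith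
    calc (c * (Nat.log 2 n + 1) + 3) ^ 2 ≤ ((c + 3) * (Nat.log 2 n + 1)) ^ 2 :=
          Nat.pow_le_pow_left h1 2
      _ = A * (Nat.log 2 n + 1) ^ 2 := by rw [hA]; ring
      _ ≤ 2 * (A * (Nat.log 2 n + 1) ^ 2) + 1 := by omega
  · have h1 := vno_le A ((Nat.log 2 n + 1) ^ 2) (Nat.one_le_pow _ _ (by omega))
    have h2 := nl_sq (Nat.log 2 n + 1)
    have h3 : vno (A * (Nat.log 2 n + 1) ^ 2) ≤
        K * ((Nat.log 2 n + 1) * nl (Nat.log 2 n + 1)) := by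
      refine h1.trans ((Nat.mul_le_mul_left _ h2).trans (le_of_eq ?_))
      rw [hK]; ring
    have h4 : 5 * K ≤ 45 * K ^ 2 := by nlinarith
    calc 5 * vno (A * (Nat.log 2 n + 1) ^ 2) ≤
        5 * (K * ((Nat.log 2 n + 1) * nl (Nat.log 2 n + 1))) := Nat.mul_le_mul_left _ h3
      _ = (5 * K) * ((Nat.log 2 n + 1) * nl (Nat.log 2 n + 1)) := by ring
      _ ≤ _ := Nat.mul_le_mul_right _ h4
  · have h1 := vno_le A ((Nat.log 2 n + 1) ^ 2) (Nat.one_le_pow _ _ (by omega))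
    have h2 := nl_sq (Nat.log 2 n + 1)
    have h3 : vno (A * (Nat.log 2 n + 1) ^ 2) ≤
        K * ((Nat.log 2 n + 1) * nl (Nat.log 2 n + 1)) := by
      refine h1.trans ((Nat.mul_le_mul_left _ h2).trans (le_of_eq ?_))
      rw [hK]; ring
    calc 45 * vno (A * (Nat.log 2 n + 1) ^ 2) ^ 2 ≤
        45 * (K * ((Nat.log 2 n + 1) * nl (Nat.log 2 n + 1))) ^ 2 :=
          Nat.mul_le_mul_left _ (Nat.pow_le_pow_left h3 2)
      _ = _ := by ring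

end Pool.Agent.W953.PD
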