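import Mathlib
import Pool.Agent.W953.PD.Num
import Pool.Agent.W953.NW.Fin

/-!
# Numbers, in terms of the space
-/

set_option autoImplicit false

namespace Pool.Agent.W953.PD

open Pool.Agent.W953.PT

/-- a power of a logarithm is small -/
lemma polylog_le (A e j : ℕ) : ∃ l₀ : ℕ, 1 ≤ l₀ ∧ ∀ l ≥ l₀, (A * (Nat.log 2 l + 1) ^ e) ^ j ≤ l := by
  obtain ⟨L₀, hL₀⟩ := Pool.Agent.W953.NW.pow_lt_two_pow (2 * ((e + 1) * j))
  refine ⟨2 ^ (L₀ + A + 2), Nat.one_le_two_pow, fun l hl => ?_⟩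
  have hl0 : l ≠ 0 := by
    have : 1 ≤ 2 ^ (L₀ + A + 2) := Nat.one_le_two_pow
    omega
  have h1 : L₀ + A + 2 ≤ Nat.log 2 l := Nat.le_log_of_pow_le (by norm_num) hl
  obtain ⟨a, ha⟩ : ∃ a, a = Nat.log 2 l := ⟨_, rfl⟩
  rw [← ha] at h1 ⊢
  have h2 : 2 ^ a ≤ l := by
    rw [ha]
    exact Nat.pow_log_le_self 2 hl0
  have h3 := hL₀ a (by omega)
  have h4 : A * (a + 1) ^ e ≤ (a + 1) ^ (e + 1) := by
    rw [pow_succ, Nat.mul_comm]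
    exact Nat.mul_le_mul_left _ (by omega)
  have h5 : (A * (a + 1) ^ e) ^ j ≤ (a + 1) ^ ((e + 1) * j) := by
    rw [pow_mul]
    exact Nat.pow_le_pow_left h4 j
  have h6 : a + 1 ≤ a ^ 2 := by nlinarith
  have h7 : (a + 1) ^ ((e + 1) * j) ≤ a ^ (2 * ((e + 1) * j)) := by
    rw [pow_mul a 2]
    exact Nat.pow_le_pow_left h6 _
  omega

lemma two_log_le (l : ℕ) (hl : 1 ≤ l) : Nat.log 2 (l ^ 2) + 1 ≤ 2 * (Nat.log 2 l + 1) := by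
  have h1 := log_mul_le l l hl hl
  rw [pow_two]
  omega

/-- directed networks of size `2 ^ l`: `M` copies fit if `M l ^ (2 + 1 / j) ≤ U` -/
lemma num_space (j : ℕ) (hj : 1 ≤ j) : ∃ l₀ : ℕ, ∀ l ≥ l₀, ∃ D, (l + 3) ^ 2 ≤ 2 * D + 1 ∧
    (∀ M U : ℕ, M ^ j * l ^ (2 * j + 1) ≤ U ^ j → 5 * M * vno D ≤ U) ∧
    ∀ M n : ℕ, M ^ j * l ^ (4 * j + 1) ≤ n ^ j → 45 * M * vno D ^ 2 ≤ n := by
  obtain ⟨K, hK⟩ : ∃ K, K = 2 ^ 42 * (16 + 1) * (Nat.log 2 (16 + 1) + 7) ^ 8 := ⟨_, rfl⟩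
  obtain ⟨l₁, h11, h1⟩ := polylog_le (5 * K * 2 ^ 8) 8 j
  obtain ⟨l₂, h21, h2⟩ := polylog_le (45 * K ^ 2 * 2 ^ 16) 16 j
  refine ⟨l₁ + l₂, fun l hl => ⟨16 * l ^ 2, ?_, ?_, ?_⟩⟩
  · have hl1 : 1 ≤ l := by omega
    nlinarith
  · intro M U hU
    have hl1 : 1 ≤ l := by omega
    have e1 := vno_le 16 (l ^ 2) (Nat.one_le_pow _ _ hl1)
    rw [← hK] at e1
    have e2 : nl (l ^ 2) ≤ l ^ 2 * (2 ^ 8 * (Nat.log 2 l + 1) ^ 8) := by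
      unfold nl
      refine Nat.mul_le_mul_left _ ?_
      rw [← mul_pow]
      exact Nat.pow_le_pow_left (two_log_le l hl1) 8
    have e3 : 5 * M * vno (16 * l ^ 2) ≤
        M * l ^ 2 * (5 * K * 2 ^ 8 * (Nat.log 2 l + 1) ^ 8) := by
      calc 5 * M * vno (16 * l ^ 2) ≤ 5 * M * (K * (l ^ 2 * (2 ^ 8 * (Nat.log 2 l + 1) ^ 8))) :=
            Nat.mul_le_mul_left _ (e1.trans (Nat.mul_le_mul_left _ e2))
        _ = _ := by ring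
    refine (Nat.pow_le_pow_iff_left (n := j) (by omega)).mp ?_
    calc (5 * M * vno (16 * l ^ 2)) ^ j ≤
        (M * l ^ 2 * (5 * K * 2 ^ 8 * (Nat.log 2 l + 1) ^ 8)) ^ j := Nat.pow_le_pow_left e3 j
      _ = M ^ j * l ^ (2 * j) * (5 * K * 2 ^ 8 * (Nat.log 2 l + 1) ^ 8) ^ j := by
          rw [mul_pow, mul_pow, ← pow_mul]
      _ ≤ M ^ j * l ^ (2 * j) * l := Nat.mul_le_mul_left _ (h1 l (by omega))
      _ = M ^ j * l ^ (2 * j + 1) := by ring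
      _ ≤ U ^ j := hU
  · intro M n hn
    have hl1 : 1 ≤ l := by omega
    have e1 := vno_le 16 (l ^ 2) (Nat.one_le_pow _ _ hl1)
    rw [← hK] at e1
    have e2 : nl (l ^ 2) ≤ l ^ 2 * (2 ^ 8 * (Nat.log 2 l + 1) ^ 8) := by
      unfold nl
      refine Nat.mul_le_mul_left _ ?_
      rw [← mul_pow]
      exact Nat.pow_le_pow_left (two_log_le l hl1) 8
    have e3 : 45 * M * vno (16 * l ^ 2) ^ 2 ≤
        M * l ^ 4 * (45 * K ^ 2 * 2 ^ 16 * (Nat.log 2 l + 1) ^ 16) := by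
      calc 45 * M * vno (16 * l ^ 2) ^ 2 ≤
          45 * M * (K * (l ^ 2 * (2 ^ 8 * (Nat.log 2 l + 1) ^ 8))) ^ 2 :=
            Nat.mul_le_mul_left _ (Nat.pow_le_pow_left (e1.trans (Nat.mul_le_mul_left _ e2)) 2)
        _ = _ := by ring
    refine (Nat.pow_le_pow_iff_left (n := j) (by omega)).mp ?_
    calc (45 * M * vno (16 * l ^ 2) ^ 2) ^ j ≤
        (M * l ^ 4 * (45 * K ^ 2 * 2 ^ 16 * (Nat.log 2 l + 1) ^ 16)) ^ j :=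
          Nat.pow_le_pow_left e3 j
      _ = M ^ j * l ^ (4 * j) * (45 * K ^ 2 * 2 ^ 16 * (Nat.log 2 l + 1) ^ 16) ^ j := by
          rw [mul_pow, mul_pow, ← pow_mul]
      _ ≤ M ^ j * l ^ (4 * j) * l := Nat.mul_le_mul_left _ (h2 l (by omega))
      _ = M ^ j * l ^ (4 * j + 1) := by ring
      _ ≤ n ^ j := hn

end Pool.Agent.W953.PD
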